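import Pool.Agent.MP_09973c_nt.H88.QCore

/-!
A fixed direction at depth `i` bounds the orbit of the entry point.
-/

set_option autoImplicit false

namespace Pool.Agent.MP_09973c_nt.H88

open Polynomial Finset Filter Pool.Agent.MP_09973c_nt.H58

theorem mid {κ : Type} [Fintype κ] [Nonempty κ] {N' E μ V Mx K₁ : ℕ} {x y : κ → ℂ}
    (h : EQp N' (μ * E) x y) {φ η : ℂ} (hφ : ‖φ‖ = 1) (hη : ‖η‖ = 1) (h1 : η ≠ 1)
    (π : Equiv.Perm κ) (hπ : ∀ l, y (π l) ^ E = η * y l ^ E) (hE : 0 < E) {ρ : ℝ} (hρ : 0 < ρ)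
    (hT : 6 * Real.exp (-ρ) ≤ ‖η - 1‖ / (16 * μ))
    (hx : ∀ l, ρ ≤ lp (x l) →
      ‖x l ^ E - φ * (‖x l ^ E‖ : ℝ)‖ ≤ ‖η - 1‖ / (16 * μ) * ‖x l ^ E‖)
    (hM : ∀ l, lp (x l) ≤ Mx) (hV : 32 / ‖η - 1‖ ≤ V) (B : Finset κ)
    (hB : ∀ l ∈ B, 2 * ρ < lp (x l)) (hB' : Fintype.card κ ≤ K₁ * B.card)
    (hμ : μ = 4 * (K₁ * (E * Mx * V + 1)))
    (hK : μ * (1 + V * μ) * ((Fintype.card κ : ℝ) - N') ≤ Fintype.card κ) : False := by
  classical
  have hv : 0 < ‖η - 1‖ := norm_pos_iff.2 (sub_ne_zero.2 h1)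
  have hv2 : ‖η - 1‖ ≤ 2 := (norm_sub_le _ _).trans (by rw [hη, norm_one]; norm_num)
  obtain ⟨σ, hσ⟩ : ∃ σ, σ = ‖η - 1‖ / 32 := ⟨_, rfl⟩
  have σ0 : 0 < σ := by rw [hσ]; positivity
  let f : κ → ℕ := fun l => ⌊E * lp (x l) / σ⌋₊
  obtain ⟨k, -, hk⟩ := exists_max_image (range (E * Mx * V + 1))
    (fun k => (B.filter fun l => f l = k).card) ⟨0, by simp⟩
  have h2 := card_le_mul_card_image_of_maps_to (s := B) (f := f) (fun l _ =>
    mem_range.2 (Nat.lt_succ_of_le (Nat.floor_le_of_le (by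
      rw [hσ, div_div_eq_mul_div, mul_div_assoc]
      push_cast
      have := lp_nonneg (x l)
      gcongr
      exact hM l)))) _ hk
  rw [card_range] at h2
  have h3 : 4 * Fintype.card κ ≤ μ * (B.filter fun l => f l = k).card := by
    rw [hμ, mul_assoc, mul_assoc, mul_comm (_ + 1)]
    exact Nat.mul_le_mul_left _ (hB'.trans (Nat.mul_le_mul_left _ h2))
  have h4 : ∀ l ∈ B.filter fun l => f l = k,
      0 ≤ E * lp (x l) - σ * k ∧ E * lp (x l) - σ * k ≤ σ := fun l hl => by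
    obtain ⟨k1, k2⟩ := (Nat.floor_eq_iff (div_nonneg (mul_nonneg E.cast_nonneg
      (lp_nonneg (x l))) σ0.le)).1 (mem_filter.1 hl).2
    rw [le_div_iff₀ σ0] at k1
    rw [div_lt_iff₀ σ0] at k2
    constructor <;> linarith
  have h5 := Fintype.card_pos (α := κ)
  obtain ⟨l₀, hl₀⟩ : (B.filter fun l => f l = k).Nonempty := card_pos.1 (Nat.pos_of_ne_zero
    fun e => by rw [e] at h3; omega)
  have hE' : (1 : ℝ) ≤ E := by exact_mod_cast hE
  refine core h hφ hη h1 π hπ (Real.exp_pos (σ * k)) ?_ (fun l => ?_) _ (fun l hl => ?_) h3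
    (le_trans (mul_le_mul_of_nonneg_right ?_ (sub_nonneg.2 (Nat.cast_le.2 (EQp.le h)))) hK)
  · have : 0 < K₁ := Nat.pos_of_ne_zero fun e => by rw [e] at hB'; omega
    rw [hμ]
    exact Nat.le_mul_of_pos_right _ (by positivity)
  · by_cases hl : ρ ≤ lp (x l)
    · exact (hx l hl).trans (by gcongr; exact le_add_of_nonneg_right (Real.exp_pos _).le)
    have k1 : ‖x l ^ E‖ ≤ Real.exp (E * ρ) := (norm_le_exp_lp _).trans (by
      rw [lp_pow]; gcongr; exact (not_le.1 hl).le)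
    have k2 : Real.exp (E * ρ) ≤ Real.exp 1 * (Real.exp (-ρ) * Real.exp (σ * k)) := by
      rw [← Real.exp_add, ← Real.exp_add, Real.exp_le_exp]
      nlinarith [(h4 l₀ hl₀).2, hB l₀ (mem_filter.1 hl₀).1]
    have k3 := mul_le_mul_of_nonneg_right (Real.exp_one_lt_d9.le.trans (show _ ≤ 3 by norm_num))
      (mul_pos (Real.exp_pos (-ρ)) (Real.exp_pos (σ * k))).le
    have k4 := mul_le_mul_of_nonneg_right hT (Real.exp_pos (σ * k)).le
    have k5 : 0 ≤ ‖η - 1‖ / (16 * μ) * ‖x l ^ E‖ := by positivity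
    refine (norm_sub_le _ _).trans ?_
    rw [norm_mul, hφ, Complex.norm_real, norm_norm]
    linarith
  · obtain ⟨k1, k2⟩ := h4 l hl
    have k3 := Real.abs_exp_sub_one_le (x := E * lp (x l) - σ * k) (by
      rw [abs_of_nonneg k1]; linarith)
    rw [abs_of_nonneg k1] at k3
    rw [norm_pow, norm_eq_exp_lp (by linarith [hB l (mem_filter.1 hl).1]), ← Real.exp_nat_mul,
      show Real.exp (E * lp (x l)) - Real.exp (σ * k) =
        (Real.exp (E * lp (x l) - σ * k) - 1) * Real.exp (σ * k) by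
          rw [sub_mul, ← Real.exp_add, sub_add_cancel, one_mul],
      abs_mul, abs_of_pos (Real.exp_pos _)]
    gcongr
    linarith
  · rw [mul_div_right_comm]
    gcongr

/-- At most exponential growth. -/
def Ex (f : ℕ → ℕ) : Prop := ∃ c : ℕ, ∀ i, f i ≤ c ^ (i + 1)

theorem Ex.const (c : ℕ) : Ex fun _ => c := ⟨c, fun i => Nat.le_self_pow i.succ_ne_zero c⟩

theorem Ex.mul {f g : ℕ → ℕ} (hf : Ex f) (hg : Ex g) : Ex fun i => f i * g i := by
  obtain ⟨c, h⟩ := hf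
  obtain ⟨c', h'⟩ := hg
  exact ⟨c * c', fun i => (Nat.mul_le_mul (h i) (h' i)).trans_eq (mul_pow _ _ _).symm⟩

theorem Ex.add {f g : ℕ → ℕ} (hf : Ex f) (hg : Ex g) : Ex fun i => f i + g i := by
  obtain ⟨c, h⟩ := hf
  obtain ⟨c', h'⟩ := hg
  exact ⟨c + c', fun i => (Nat.add_le_add (h i) (h' i)).trans
    (pow_add_pow_le c.zero_le c'.zero_le i.succ_ne_zero)⟩

theorem Ex.pow {f : ℕ → ℕ} (hf : Ex f) (n : ℕ) : Ex fun i => f i ^ n := by
  obtain ⟨c, h⟩ := hf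
  exact ⟨c ^ n, fun i => (Nat.pow_le_pow_left (h i) n).trans_eq (pow_right_comm _ _ _)⟩

theorem Ex.exp (q : ℕ) : Ex fun i => q ^ i :=
  ⟨q + 1, fun i => (Nat.pow_le_pow_left q.le_succ i).trans
    (Nat.pow_le_pow_right q.succ_pos i.le_succ)⟩

theorem ev {θ δ : ℝ} (X : ℝ) (hθ : 1 < θ) (hδ : 0 < δ) :
    ∃ i₀ : ℕ, ∀ i, i₀ ≤ i → (i + 1) * X ≤ δ * θ ^ i := by
  obtain ⟨i₀, h⟩ := eventually_atTop.1 ((((tendsto_pow_const_div_const_pow_of_one_lt 1 hθ).add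
    (tendsto_pow_const_div_const_pow_of_one_lt 0 hθ)).mul_const X).eventually_le_const
      (show (0 + 0) * X < δ by simpa using hδ))
  refine ⟨i₀, fun i hi => ?_⟩
  have := h i hi
  rwa [← add_div, div_mul_eq_mul_div, div_le_iff₀ (by positivity), pow_one, pow_zero] at this

theorem qdir (hD : DPStmt) (hL : LargeStmt) (hA : EAStmt) : QStmt := by
  classical
  intro p q a G E C κ hp hpq hc ha hG hGK hE hEp hκ
  obtain ⟨d, hd, H, hH, hS⟩ := exists_Sz a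
  obtain ⟨Cd, hD⟩ := hD p q a G (2 + H) d hp hpq hc ha hG hGK (by linarith [hS.norm_le]) hd hS.1
  obtain ⟨δ, hδ, m₁, hA⟩ := hA p q a hp hpq hc (by simpa using ha)
  obtain ⟨ω, hω⟩ : ∃ ω : ℂ, IsPrimitiveRoot ω p := ⟨_, Complex.isPrimitiveRoot_exp p (by omega)⟩
  have h1 : ω ^ E ≠ 1 := fun e => by
    have := hEp.symm.eq_one_of_dvd ((hω.pow_eq_one_iff_dvd E).1 e)
    omega
  have hη : ‖ω ^ E‖ = 1 := by rw [norm_pow, norm_root (by omega) hω.pow_eq_one, one_pow]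
  have hv : 0 < ‖ω ^ E - 1‖ := norm_pos_iff.2 (sub_ne_zero.2 h1)
  obtain ⟨V, hV⟩ := exists_nat_ge (32 / ‖ω ^ E - 1‖)
  obtain ⟨M, hM⟩ := exists_nat_ge (1 + 2 * Real.log (1 + H))
  have hM0 := log_one_add_nonneg hS.nonneg
  obtain ⟨μ, hμ⟩ : ∃ μ : ℕ → ℕ, ∀ i, μ i =
    4 * (8 * (q ^ m₁ * q ^ i) * (q ^ i * M) * (E * (q ^ i * M) * V + 1)) := ⟨_, fun _ => rfl⟩
  have e0 : Ex fun i => q ^ m₁ * q ^ i := (Ex.const _).mul (Ex.exp q)
  have e1 : Ex fun i => q ^ i * M := (Ex.exp q).mul (Ex.const _)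
  have e2 : Ex μ := funext hμ ▸ (Ex.const _).mul ((((Ex.const _).mul e0).mul e1).mul
    ((((Ex.const _).mul e1).mul (Ex.const _)).add (Ex.const _)))
  obtain ⟨C', hC'⟩ := ((((Ex.exp 2).mul (Ex.const (2 ^ (m₁ + 1)))).mul ((e2.mul (Ex.const E)).add
    ((Ex.const 8).mul e0))).mul (e0.add (e2.mul ((Ex.const 1).add ((Ex.const V).mul e2))))).pow Cd
  obtain ⟨c, hc₁⟩ := ((Ex.const (V * (⌈|C|⌉₊ + 6))).mul e2)
  have hp' : (0 : ℝ) < p := by positivity
  have hθ : 1 < (q : ℝ) / p := (one_lt_div hp').2 (by exact_mod_cast hpq)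
  have hκ' : 0 < min κ 1 := lt_min hκ one_pos
  obtain ⟨i₀, hi₀⟩ := ev (c + |C| + 1) hθ (show 0 < min κ 1 * (δ / 4) by positivity)
  refine ⟨C', i₀ + 1, fun D i φ hi hn hφ h => le_trans (not_lt.1 fun hlt => ?_) (hC' i)⟩
  have hq : 0 < q ^ m₁ * q ^ i := by have : 0 < q := by omega
                                     positivity
  obtain ⟨m, hm, hD⟩ := hD i (μ i * E + 8 * (q ^ m₁ * q ^ i))
    (q ^ m₁ * q ^ i + μ i * (1 + V * μ i)) m₁ (by omega) (by omega)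
  obtain ⟨N, N', R, g, hN, -, hR, hg, -, hK, hQ⟩ := hD D.ξ D.u D.t D.hξ D.hξ1 (D.bwd_u m)
    (fun j _ => (D.u_Sz (by omega) hpq hS j).mono dvd_rfl (by linarith)) D.ht0
    (fun k hk => D.ht k (by omega)) (by rwa [add_assoc, pow_add])
  have hN0 : 0 < N := by omega
  have : Nonempty (Fin N) := ⟨⟨0, hN0⟩⟩
  obtain ⟨ρ, hρ⟩ : ∃ ρ, ρ = δ / 4 * ((q : ℝ) / p) ^ i := ⟨_, rfl⟩
  have r0 : 0 < ρ := by rw [hρ]; positivity
  have r1 := hi₀ i (by omega)
  rw [mul_assoc, ← hρ] at r1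
  have r2 := mul_le_mul_of_nonneg_right (min_le_right κ 1) r0.le
  have r3 : 0 ≤ (i : ℝ) * (c + |C| + 1) := by positivity
  have r4 : (0 : ℝ) ≤ c := c.cast_nonneg
  have r5 := abs_nonneg C
  have μ0 : (0 : ℝ) < μ i := by
    have : 0 < M := Nat.cast_pos.1 (show (0 : ℝ) < M by linarith)
    have : 0 < q := by omega
    rw [hμ]
    positivity
  have r6 : (|C| + 6) * Real.exp (-(min κ 1 * ρ)) ≤ ‖ω ^ E - 1‖ / (16 * μ i) := by
    have k1 : (V * (⌈|C|⌉₊ + 6) * μ i : ℝ) ≤ Real.exp (min κ 1 * ρ) := by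
      have k2 : (c : ℝ) ^ (i + 1) ≤ Real.exp c ^ (i + 1) := by
        gcongr
        linarith [Real.add_one_le_exp (c : ℝ)]
      rw [← Real.exp_nat_mul] at k2
      refine le_trans (by exact_mod_cast hc₁ i) (k2.trans (Real.exp_le_exp.2 (le_trans ?_ r1)))
      push_cast
      gcongr
      linarith
    rw [Real.exp_neg, ← div_eq_mul_inv, div_le_div_iff₀ (Real.exp_pos _) (by positivity)]
    refine le_trans ?_ (mul_le_mul_of_nonneg_left k1 hv.le)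
    rw [div_le_iff₀' hv] at hV
    rw [← mul_assoc, ← mul_assoc, ← mul_assoc, mul_comm _ (16 : ℝ)]
    gcongr
    · linarith
    · exact Nat.le_ceil _
  have hN' : (0 : ℝ) ≤ (N : ℝ) - N' := sub_nonneg.2 (by exact_mod_cast by simpa using EQp.le hQ)
  have hK' : ((q ^ m₁ * q ^ i + μ i * (1 + V * μ i) : ℕ) : ℝ) * 4 * ((N : ℝ) - N') ≤ N := by
    refine le_trans ?_ hK
    gcongr
    linarith [Real.log_natCast_nonneg N]
  have k0 : 0 ≤ ((q ^ m₁ * q ^ i : ℕ) : ℝ) * ((N : ℝ) - N') := by positivity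
  have k1 : 0 ≤ μ i * (1 + V * μ i) * ((N : ℝ) - N') := by positivity
  rw [Nat.cast_add, Nat.cast_mul (μ i), Nat.cast_add, Nat.cast_mul V, Nat.cast_one] at hK'
  have hMx : ∀ l, lp ((g l (D.t i) : Qb) : ℂ) ≤ (q ^ i * M : ℕ) := fun l => by
    refine (D.lp_t_le (by omega) hpq (g l : Qb →+* Qb) (hS.2 _) hn).trans ?_
    push_cast
    gcongr
    · exact div_le_self q.cast_nonneg (by exact_mod_cast by omega)
    · linarith
  have hB := hL (Fin N) N' (8 * (q ^ m₁ * q ^ i)) (q ^ m₁ * q ^ i) _ _ (2 * ρ) (4 * ρ)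
    (q ^ i * M : ℕ) (EQp.mono hQ (Nat.le_add_left _ _)) (by linarith) (by
      push_cast
      exact one_le_mul_of_one_le_of_one_le (one_le_pow₀ (by exact_mod_cast by omega))
        (by linarith)) hMx (by
      rw [Nat.cast_mul 8, Nat.cast_ofNat]
      exact le_mul_of_one_le_right (by positivity) (by linarith)) (by
      rw [← pow_add]
      refine hR.frac m₁ hm i le_rfl _ fun x => ?_
      obtain ⟨u, t, a1, a2, a3, a4, a5⟩ := hA m₁ le_rfl D.ξ ((R x).1 m₁) i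
        (by exact_mod_cast D.hξ) (by exact_mod_cast D.hξ1)
      exact ⟨u, t, a1, a2, a3, a4, fun y _ hy => mem_filter.2 ⟨mem_univ _, by
        rw [hy i le_rfl]; linarith⟩⟩) (by rw [Fintype.card_fin]; linarith)
  obtain ⟨π, hπ⟩ := hR.rot (by omega) ω hω.pow_eq_one
  refine mid (EQp.mono hQ (Nat.le_add_right _ _)) hφ hη h1 π (fun l => by rw [hπ, mul_pow]) hE r0
    (le_trans ?_ r6) (fun l hl => (h _ (hg l) ?_).trans ?_) hMx hV _
    (fun l hl => (mem_filter.1 hl).2) (by exact_mod_cast hB) (hμ i)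
    (by rw [Fintype.card_fin]; linarith)
  · gcongr <;> linarith
  · rw [lp_coe] at hl
    linarith [le_abs_self C]
  · rw [mul_right_comm]
    gcongr
    refine le_trans ?_ r6
    rw [lp_coe] at hl
    exact mul_le_mul (by linarith [le_abs_self C]) (Real.exp_le_exp.2 (neg_le_neg
      (mul_le_mul (min_le_left _ _) hl r0.le hκ.le))) (Real.exp_pos _).le (by linarith)

end Pool.Agent.MP_09973c_nt.H88
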