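import Pool.Agent.MP_09973c_nt.H58.SpecA

/-!
A direction constraint on the orbit is incompatible with a rotation invariant grid.
-/

set_option autoImplicit false

namespace Pool.Agent.MP_09973c_nt.H88

open Polynomial Finset Pool.Agent.MP_09973c_nt.H58

theorem mah {κ : Type} (S : Finset κ) (A : κ → ℂ) {ρ : ℝ} (hρ : 0 < ρ) :
    ∃ z : ℂ, ‖z‖ = 1 ∧ ∏ l ∈ S, max ‖A l‖ ρ ≤ ∏ l ∈ S, ‖A l + ρ * z‖ := by
  let c : κ → ℂ := fun l => if ρ ≤ ‖A l‖ then ρ / A l else (starRingEnd ℂ) (A l) / ρ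
  obtain ⟨z, hz, h⟩ := H31.exists_circle_of_one_le (∏ l ∈ S, (1 + C (c l) * X))
    (by simp [eval_prod])
  refine ⟨z, hz, (le_mul_of_one_le_right (prod_nonneg fun l _ => by positivity) h).trans_eq ?_⟩
  rw [eval_prod, norm_prod, ← prod_mul_distrib]
  refine prod_congr rfl fun l _ => ?_
  simp only [eval_add, eval_one, eval_mul, eval_C, eval_X, c]
  split_ifs with h1
  · have h2 : A l ≠ 0 := norm_pos_iff.1 (hρ.trans_le h1)
    rw [max_eq_left h1, ← norm_mul]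
    congr 1
    field_simp
  · have h2 : (ρ : ℂ) ≠ 0 := Complex.ofReal_ne_zero.2 hρ.ne'
    have h3 : z * (starRingEnd ℂ) z = 1 := by rw [Complex.mul_conj', hz]; simp
    rw [max_eq_right (not_le.1 h1).le, show A l + ρ * z =
      z * (starRingEnd ℂ) (ρ * (1 + (starRingEnd ℂ) (A l) / ρ * z)) by
        simp only [map_mul, map_add, map_one, map_div₀, Complex.conj_conj, Complex.conj_ofReal]
        field_simp
        linear_combination -A l * h3,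
      norm_mul, hz, one_mul, Complex.norm_conj, norm_mul, Complex.norm_real,
      Real.norm_of_nonneg hρ.le]

theorem ratio {Z φ η : ℂ} {r e : ℝ} (hφ : ‖φ‖ = 1) (hη : ‖η‖ = 1) (hr : 0 ≤ r) (he : 0 ≤ e)
    (hZ : ‖Z - φ * (‖Z‖ : ℝ)‖ ≤ e * ‖η - 1‖ / 4 * (‖Z‖ + r)) :
    ∃ D : ℝ, |‖Z‖ - r| ≤ D ∧ ‖η - 1‖ * r ≤ 2 * D ∧ (1 - e) * D ≤ ‖η * Z - φ * r‖ ∧
      ∀ z : ℂ, ‖z‖ = 1 → ‖Z - φ * r + (e * ‖η - 1‖ / 4 * r : ℝ) * z‖ ≤ |‖Z‖ - r| + 2 * e * D := by
  obtain ⟨s, hs⟩ : ∃ s, s = ‖Z‖ := ⟨_, rfl⟩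
  have hs0 : 0 ≤ s := hs ▸ norm_nonneg _
  rw [← hs] at hZ ⊢
  have n1 : ‖(s : ℂ) - r‖ = |s - r| := by rw [← Complex.ofReal_sub, Complex.norm_real]; rfl
  have h1 : |s - r| ≤ ‖η * s - r‖ := by
    simpa [hη, abs_of_nonneg hs0, abs_of_nonneg hr] using abs_norm_sub_norm_le (η * s) r
  have h2 : ‖η - 1‖ * r ≤ 2 * ‖η * s - r‖ := by
    have := norm_sub_le (η * s - r) (η * (s - r))
    rw [show η * s - r - η * (s - r) = (η - 1) * r by ring, norm_mul, norm_mul, hη, n1,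
      Complex.norm_real, Real.norm_of_nonneg hr] at this
    linarith
  have h3 : ‖η - 1‖ * s ≤ 2 * ‖η * s - r‖ := by
    have := norm_sub_le (η * s - r) (s - r)
    rw [show η * s - r - (s - r) = (η - 1) * s by ring, norm_mul, n1,
      Complex.norm_real, Real.norm_of_nonneg hs0] at this
    linarith
  have h4 := mul_le_mul_of_nonneg_left h2 he
  have h5 := mul_le_mul_of_nonneg_left h3 he
  refine ⟨_, h1, h2, ?_, fun z hz => ?_⟩
  · have := norm_sub_le (η * Z - φ * r) (η * (Z - φ * s))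
    rw [show η * Z - φ * r - η * (Z - φ * s) = φ * (η * s - r) by ring, norm_mul, norm_mul, hη,
      hφ] at this
    linarith
  · rw [show Z - φ * r + (e * ‖η - 1‖ / 4 * r : ℝ) * z =
      Z - φ * s + φ * (s - r) + (e * ‖η - 1‖ / 4 * r : ℝ) * z by ring]
    refine norm_add₃_le.trans ?_
    rw [norm_mul, norm_mul, hφ, hz, n1, Complex.norm_real, Real.norm_of_nonneg (by positivity)]
    nlinarith [mul_nonneg he (norm_nonneg (η * s - r))]

theorem EQp.le {κ : Type} [Fintype κ] {N' w : ℕ} {x y : κ → ℂ} (h : EQp N' w x y) :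
    N' ≤ Fintype.card κ := by
  obtain ⟨S, hS, -⟩ := h (fun _ => 1) fun _ => one_pos
  exact hS ▸ card_le_univ S

theorem EQp.mono {κ : Type} [Fintype κ] {N' w w' : ℕ} {x y : κ → ℂ} (h : EQp N' w x y)
    (hw : w' ≤ w) : EQp N' w' x y := fun u hu => by
  obtain ⟨S₁, h1, h⟩ := h u hu
  refine ⟨S₁, h1, fun f => ?_⟩
  obtain ⟨S, h2, h⟩ := h ⟨f.1, f.2.trans hw⟩
  exact ⟨S, h2, fun g => h ⟨g.1, g.2.trans hw⟩⟩

theorem deg_le (α β : ℂ) (E μ : ℕ) : ((C α * X ^ E - C β) ^ μ : ℂ[X]).natDegree ≤ μ * E :=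
  natDegree_pow_le.trans (Nat.mul_le_mul_left _ ((natDegree_sub_le _ _).trans
    (max_le (natDegree_C_mul_X_pow_le _ _) (by simp))))

theorem core {κ : Type} [Fintype κ] [Nonempty κ] {N' E μ : ℕ} {x y : κ → ℂ}
    (h : EQp N' (μ * E) x y) {φ η : ℂ} (hφ : ‖φ‖ = 1) (hη : ‖η‖ = 1) (h1 : η ≠ 1)
    (π : Equiv.Perm κ) (hπ : ∀ l, y (π l) ^ E = η * y l ^ E) {r : ℝ} (hr : 0 < r) (hμ : 4 ≤ μ)
    (hx : ∀ l, ‖x l ^ E - φ * (‖x l ^ E‖ : ℝ)‖ ≤ ‖η - 1‖ / (16 * μ) * (‖x l ^ E‖ + r))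
    (W : Finset κ) (hW : ∀ l ∈ W, |‖x l ^ E‖ - r| ≤ ‖η - 1‖ / 16 * r)
    (hN : 4 * Fintype.card κ ≤ μ * W.card)
    (hK : μ * (1 + 32 * μ / ‖η - 1‖) * ((Fintype.card κ : ℝ) - N') ≤ Fintype.card κ) : False := by
  classical
  have hv : 0 < ‖η - 1‖ := norm_pos_iff.2 (sub_ne_zero.2 h1)
  have hμ' : (4 : ℝ) ≤ μ := by exact_mod_cast hμ
  obtain ⟨e, he⟩ : ∃ e : ℝ, e = 1 / (4 * μ) := ⟨_, rfl⟩
  have he0 : 0 < e := by rw [he]; positivity
  have he1 : 4 * e * μ = 1 := by rw [he]; field_simp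
  have he2 : e ≤ 1 / 16 := by nlinarith
  choose D d1 d2 d3 d4 using fun l => ratio (Z := x l ^ E) hφ hη hr.le he0.le
    ((hx l).trans_eq (by rw [he]; field_simp; norm_num))
  have d0 : ∀ l, 0 < D l := fun l => by nlinarith [d2 l, mul_pos hv hr]
  have d5 : ∀ l, 0 < ‖η * x l ^ E - φ * r‖ := fun l =>
    (mul_pos (by linarith) (d0 l)).trans_le (d3 l)
  obtain ⟨ρ, hρ⟩ : ∃ ρ, ρ = e * ‖η - 1‖ / 4 * r := ⟨_, rfl⟩
  have hρ0 : 0 < ρ := by rw [hρ]; positivity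
  rw [← hρ] at d4
  obtain ⟨S₁, -, h2⟩ := h (fun l => ‖η * x l ^ E - φ * r‖ ^ μ) fun l => pow_pos (d5 l) _
  obtain ⟨S, hS, h2⟩ := h2 ⟨_, deg_le η (φ * r) E μ⟩
  obtain ⟨z, hz, h3⟩ := mah S (fun l => y l ^ E - φ * r) hρ0
  obtain ⟨S₂, hS₂, h2⟩ := h2 ⟨_, deg_le 1 (φ * r - ρ * z) E μ⟩
  simp only [eval_pow, eval_sub, eval_mul, eval_C, eval_X, norm_pow (_ - _), norm_pow (_ + _), one_mul,
    ← sub_add, ← div_pow, prod_pow] at h2
  rw [prod_eq_one fun l _ => div_self (d5 l).ne', one_pow, one_mul] at h2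
  obtain ⟨m, hm⟩ : ∃ m : κ → ℝ, ∀ l, m l = max ‖y l ^ E - φ * r‖ ρ := ⟨_, fun _ => rfl⟩
  have m0 : ∀ l, 0 < m l := fun l => hm l ▸ lt_max_of_lt_right hρ0
  simp only [← hm] at h3
  have m1 : ∀ l, m l ≤ Real.exp (32 * μ / ‖η - 1‖) * m (π l) := fun l => by
    have k1 : ρ ≤ m (π l) := hm _ ▸ le_max_right _ _
    have k2 : ‖η * y l ^ E - φ * r‖ ≤ m (π l) := by rw [hm, hπ]; exact le_max_left _ _
    have k3 := norm_sub_norm_le (η * y l ^ E) (φ * r)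
    have k4 := norm_sub_le (y l ^ E) (φ * r)
    rw [norm_mul, hη] at k3
    rw [norm_mul, hφ, Complex.norm_real, Real.norm_of_nonneg hr.le] at k3 k4
    have k5 : 32 * μ / ‖η - 1‖ * ρ = 2 * r := by rw [hρ, he]; field_simp; norm_num
    have k6 := mul_le_mul_of_nonneg_left k1 (show 0 ≤ 32 * μ / ‖η - 1‖ by positivity)
    refine le_trans ?_ (mul_le_mul_of_nonneg_right (Real.add_one_le_exp _) (m0 _).le)
    rw [hm l]
    exact max_le (by linarith) (by linarith)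
  have m2 : ∏ l ∈ S, ‖η * y l ^ E - φ * r‖ ≤
      (∏ l ∈ S, m l) * Real.exp (32 * μ / ‖η - 1‖) ^ Sᶜ.card := by
    refine (prod_le_prod (g := fun l => m (π l)) (fun _ _ => norm_nonneg _) fun l _ => by
      rw [hm, hπ]; exact le_max_left _ _).trans (le_of_mul_le_mul_right ?_
        (prod_pos (s := Sᶜ) fun l _ => m0 (π l)))
    rw [prod_mul_prod_compl, Equiv.prod_comp π m, ← prod_mul_prod_compl S m, mul_assoc,
      ← prod_const, ← prod_mul_distrib]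
    exact mul_le_mul_of_nonneg_left (prod_le_prod (fun l _ => (m0 l).le) fun l _ => m1 l)
      (prod_nonneg fun l _ => (m0 l).le)
  have m3 : ∏ l ∈ S₂, ‖x l ^ E - φ * r + ρ * z‖ / ‖η * x l ^ E - φ * r‖ ≤
      Real.exp (∑ l ∈ S₂, (4 * e - if l ∈ W then 1 else 0)) := by
    rw [Real.exp_sum]
    refine prod_le_prod (fun _ _ => by positivity) fun l _ => ?_
    rw [div_le_iff₀ (d5 l)]
    refine (d4 l z hz).trans (le_trans ?_ (mul_le_mul_of_nonneg_left (d3 l) (Real.exp_pos _).le))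
    rw [← mul_assoc]
    split_ifs with hl
    · have k1 : (1 : ℝ) / 3 ≤ Real.exp (4 * e - 1) := by
        refine le_trans ?_ (Real.exp_le_exp.2 (show -1 ≤ 4 * e - 1 by linarith))
        rw [Real.exp_neg, one_div]
        exact inv_anti₀ (Real.exp_pos _) (Real.exp_one_lt_d9.le.trans (by norm_num))
      have k2 : 1 / 8 + 2 * e ≤ Real.exp (4 * e - 1) * (1 - e) := by nlinarith
      nlinarith [hW l hl, d2 l, d0 l]
    · have k2 : 1 + 2 * e ≤ Real.exp (4 * e - 0) * (1 - e) := by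
        nlinarith [Real.add_one_le_exp (4 * e - 0)]
      nlinarith [d1 l, d0 l]
  have P0 : 0 < (∏ l ∈ S, m l) ^ μ := pow_pos (prod_pos fun l _ => m0 l) _
  have h4 : (∏ l ∈ S, m l) ^ μ * Real.exp 0 ≤ (∏ l ∈ S, m l) ^ μ * Real.exp (Fintype.card κ +
      μ * (Sᶜ.card * (32 * μ / ‖η - 1‖)) + μ * ∑ l ∈ S₂, (4 * e - if l ∈ W then 1 else 0)) := by
    rw [Real.exp_zero, mul_one, Real.exp_add, Real.exp_add, Real.exp_nat_mul, Real.exp_nat_mul,
      Real.exp_nat_mul]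
    refine ((pow_le_pow_left₀ (prod_nonneg fun l _ => (m0 l).le) h3 μ).trans h2).trans
      ((mul_le_mul (mul_le_mul_of_nonneg_left (pow_le_pow_left₀ (by positivity) m2 μ)
        (Real.exp_pos _).le) (pow_le_pow_left₀ (by positivity) m3 μ) (by positivity)
        (mul_pos (Real.exp_pos _) (pow_pos (mul_pos (prod_pos fun l _ => m0 l)
          (by positivity)) _)).le).trans_eq (by ring))
  have h5 := Real.exp_le_exp.1 (le_of_mul_le_mul_left h4 P0)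
  have h6 : (W.card : ℝ) + N' ≤ Fintype.card κ + (S₂.filter (· ∈ W)).card := by
    rw [filter_mem_eq_inter, ← hS₂, add_comm]
    exact_mod_cast (card_union_add_card_inter S₂ W).ge.trans
      (Nat.add_le_add_right (card_le_univ _) _)
  have h7 : (N' : ℝ) ≤ Fintype.card κ := by exact_mod_cast EQp.le h
  have h8 : (0 : ℝ) < Fintype.card κ := by exact_mod_cast Fintype.card_pos
  have h9 : 4 * (Fintype.card κ : ℝ) ≤ μ * W.card := by exact_mod_cast hN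
  rw [sum_sub_distrib, sum_boole, sum_const, hS₂, card_compl, hS, Nat.cast_sub (EQp.le h),
    nsmul_eq_mul] at h5
  have h10 := mul_le_mul_of_nonneg_left h6 (show (0 : ℝ) ≤ μ by positivity)
  have h11 : (μ : ℝ) * (N' * (4 * e)) = N' := by linear_combination N' * he1
  nlinarith

end Pool.Agent.MP_09973c_nt.H88
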